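import Pool.Agent.H499R2.HL.B

/-! The law of the number of odd terms before the first hit of a finite set of odd integers, for the
odd integers of either sign. -/

set_option autoImplicit false

namespace Pool.Agent.W26.HN

open Finset Filter Topology

open Pool.Agent.H499R2.ND (Dn cnt Td dn_squeeze large_log Phi Phi_continuous phi_cdf cnt_eq)
open Pool.Agent.H499R2.LT
open Pool.Agent.H499R2.HL (nu nu_pos rr rr_pos bk bo bk_eq bo_eq bo_shift bo_theta large_sqrt dn_odd)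

/-- first hit of `F` at time `k` -/
def E (F : Finset ℤ) (k : ℕ) (x : ℤ) : Prop := (Td 1)^[k] x ∈ F ∧ ∀ i < k, (Td 1)^[i] x ∉ F

theorem E_unique {F : Finset ℤ} {k k' : ℕ} {x : ℤ} (h : E F k x) (h' : E F k' x) : k = k' := by
  rcases lt_trichotomy k k' with h1 | h1 | h1
  · exact absurd h.1 (h'.2 k h1)
  · exact h1
  · exact absurd h'.1 (h.2 k' h1)

theorem exists_E {F : Finset ℤ} {k : ℕ} {x : ℤ} (h : (Td 1)^[k] x ∈ F) : ∃ j, j ≤ k ∧ E F j x := by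
  classical
  have hex : ∃ k, (Td 1)^[k] x ∈ F := ⟨k, h⟩
  exact ⟨Nat.find hex, Nat.find_min' hex h, Nat.find_spec hex, fun i hi => Nat.find_min hex hi⟩

theorem Td_two (x : ℤ) : Td 1 (2 * x) = x := by
  unfold Td
  rw [if_pos (by omega)]
  omega

variable {F : Finset ℤ} (hF : ∀ y ∈ F, y % 2 = 1)

include hF in
theorem E_two {k : ℕ} {x : ℤ} (h : E F k x) : E F (k + 1) (2 * x) := by
  constructor
  · rw [Function.iterate_succ_apply, Td_two]; exact h.1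
  · intro i hi
    rcases i with _ | i
    · intro h0
      have h1 := hF _ h0
      rw [Function.iterate_zero, id_eq] at h1
      omega
    · rw [Function.iterate_succ_apply, Td_two]; exact h.2 i (by omega)

include hF in
theorem E_of_two {k : ℕ} {x : ℤ} (h : E F k (2 * x)) : ∃ k', k = k' + 1 ∧ E F k' x := by
  rcases k with _ | k
  · exfalso
    have h1 := hF _ h.1
    rw [Function.iterate_zero, id_eq] at h1
    omega
  · refine ⟨k, rfl, ?_, fun i hi => ?_⟩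
    · have := h.1
      rwa [Function.iterate_succ_apply, Td_two] at this
    · have := h.2 (i + 1) (by omega)
      rwa [Function.iterate_succ_apply, Td_two] at this

theorem od_two (k : ℕ) (x : ℤ) : od 1 (k + 1) (2 * x) = od 1 k x := by
  rw [od, if_pos (by omega), Td_two, zero_add]

/-- the residual of a hit -/
theorem res (F : Finset ℤ) : ∃ C : ℝ, 0 < C ∧ ∀ (x : ℤ) (k : ℕ), x ≠ 0 → E F k x →
    |Real.log (x : ℝ) + (od 1 k x : ℝ) * Real.log 3 - k * Real.log 2| ≤ C := by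
  classical
  choose C hC h using fun f : ℤ => bres (d := 1) (by decide) isCoprime_one_left F f
  refine ⟨1 + ∑ f ∈ F, C f, by
    have := Finset.sum_nonneg (fun f (_ : f ∈ F) => (hC f).le)
    linarith, fun x k hx hk => ?_⟩
  have h1 := h ((Td 1)^[k] x) x k hx ⟨rfl, hk.1, hk.2⟩
  have h2 := Finset.single_le_sum (f := C) (fun f _ => (hC f).le) hk.1
  linarith

/-- sum over the residue classes of the time -/
theorem law_k {s : ℤ} (hs : s = 1 ∨ s = -1) (F : Finset ℤ) :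
    ∃ δ : ℝ, 0 ≤ δ ∧ ((∃ a ∈ F, 0 < s * a ∧ ¬ (3 : ℤ) ∣ a) → 0 < δ) ∧
    Dn (fun n : ℕ => ∃ k : ℕ, (Td 1)^[k] (s * n) ∈ F) δ ∧
    ∀ (m : ℕ) (b : ℤ), 1 ≤ m →
      Dn (fun n : ℕ => ∃ k : ℕ, E F k (s * n) ∧ od 1 k (s * n) ≡ b [ZMOD m]) (δ / m) ∧
      ∀ x : ℝ, Dn (fun n : ℕ => ∃ k : ℕ, (k : ℝ) ≤ bk x (Real.log n) ∧ E F k (s * n) ∧
        od 1 k (s * n) ≡ b [ZMOD m]) (δ / m * Phi x) := by
  obtain ⟨δ, h0, h1, h2, h3⟩ := joint_side (d := 1) odd_one (by omega) hs F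
  refine ⟨δ, h0, h1, h2, fun m b hm => ?_⟩
  have hm0 : (m : ℝ) ≠ 0 := by exact_mod_cast (by omega : m ≠ 0)
  have hcls : ∀ k : ℕ, ∃ a ∈ Finset.range m, (k : ℤ) ≡ (a : ℤ) [ZMOD m] := by
    intro k
    refine ⟨k % m, Finset.mem_range.2 (Nat.mod_lt _ hm), ?_⟩
    rw [Int.ModEq]
    push_cast
    simp
  have huni : ∀ a ∈ Finset.range m, ∀ a' ∈ Finset.range m, ∀ k : ℕ, (k : ℤ) ≡ (a : ℤ) [ZMOD m] →
      (k : ℤ) ≡ (a' : ℤ) [ZMOD m] → a = a' := by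
    intro a ha a' ha' k h5 h6
    rw [Finset.mem_range] at ha ha'
    have h7 : (a : ℤ) ≡ (a' : ℤ) [ZMOD m] := h5.symm.trans h6
    have h8 : a ≡ a' [MOD m] := (Int.natCast_modEq_iff).1 h7
    exact Nat.ModEq.eq_of_lt_of_lt h8 ha ha'
  constructor
  · have h5 := Dn_sum (Finset.range m) _ (fun _ => δ / (m : ℝ) ^ 2)
      (fun a _ => equi_side (d := 1) odd_one (by omega) hs F h2 m a b hm) (by
      rintro n a ha a' ha' ⟨k, hk, hk1, _⟩ ⟨k', hk', hk1', _⟩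
      obtain rfl := E_unique hk hk'
      exact huni a ha a' ha' k hk1 hk1')
    rw [Finset.sum_const, Finset.card_range, nsmul_eq_mul] at h5
    have e : (m : ℝ) * (δ / (m : ℝ) ^ 2) = δ / m := by field_simp
    rw [e] at h5
    refine Dn_iff (fun n _ => ?_) h5
    constructor
    · rintro ⟨a, _, k, hk, _, hk2⟩
      exact ⟨k, hk, hk2⟩
    · rintro ⟨k, hk, hk2⟩
      obtain ⟨a, ha, ha'⟩ := hcls k
      exact ⟨a, ha, k, hk, ha', hk2⟩
  · intro x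
    have h5 := Dn_sum (Finset.range m) _ (fun _ => δ / (m : ℝ) ^ 2 * Phi x)
      (fun a _ => h3 x m a b hm) (by
      rintro n a ha a' ha' ⟨k, _, hk, hk1, _⟩ ⟨k', _, hk', hk1', _⟩
      obtain rfl := E_unique hk hk'
      exact huni a ha a' ha' k hk1 hk1')
    rw [Finset.sum_const, Finset.card_range, nsmul_eq_mul] at h5
    have e : (m : ℝ) * (δ / (m : ℝ) ^ 2 * Phi x) = δ / m * Phi x := by field_simp
    rw [e] at h5
    refine Dn_iff (fun n hn => ?_) h5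
    have hb : bk x (Real.log n) = Real.log n / Pool.Agent.H319R2.Lln.mu + x * Pool.Agent.H499R2.ND.sg * Real.sqrt (Real.log n) := by
      rw [tb2 x n hn]
      rfl
    rw [hb]
    constructor
    · rintro ⟨a, _, k, hk0, hk, _, hk2⟩
      exact ⟨k, hk0, hk, hk2⟩
    · rintro ⟨k, hk0, hk, hk2⟩
      obtain ⟨a, ha, ha'⟩ := hcls k
      exact ⟨a, ha, k, hk0, hk, ha', hk2⟩

theorem log_side {s : ℤ} (hs : s = 1 ∨ s = -1) (n : ℕ) : Real.log ((s * (n : ℤ) : ℤ) : ℝ) = Real.log n := by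
  rcases hs with rfl | rfl
  · push_cast; rw [one_mul]
  · push_cast; rw [neg_one_mul, Real.log_neg_eq_log]

/-- the law of the number of odd terms -/
theorem law_o {s : ℤ} (hs : s = 1 ∨ s = -1) (F : Finset ℤ) {δ : ℝ} {m : ℕ} {b : ℤ}
    (h : ∀ x : ℝ, Dn (fun n : ℕ => ∃ k : ℕ, (k : ℝ) ≤ bk x (Real.log n) ∧ E F k (s * n) ∧
      od 1 k (s * n) ≡ b [ZMOD m]) (δ / m * Phi x)) (x : ℝ) :
    Dn (fun n : ℕ => ∃ k : ℕ, (od 1 k (s * n) : ℝ) ≤ bo x (Real.log n) ∧ E F k (s * n) ∧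
      od 1 k (s * n) ≡ b [ZMOD m]) (δ / m * Phi x) := by
  obtain ⟨C, hC, hres⟩ := res F
  have hl3 : 0 < Real.log 3 := Real.log_pos (by norm_num)
  have hl2 : 0 < Real.log 2 := Real.log_pos (by norm_num)
  have hrr := rr_pos
  refine dn_squeeze (P := fun x (n : ℕ) => ∃ k : ℕ, (k : ℝ) ≤ bk x (Real.log n) ∧ E F k (s * n) ∧
      od 1 k (s * n) ≡ b [ZMOD m])
    (F := fun x => δ / m * Phi x) (Phi_continuous.const_mul _) h ?_
  intro θ hθ η hη
  obtain ⟨A, hA, hA'⟩ := large_log (large_sqrt C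
    (show 0 < θ * (Real.log 2 * Real.log 3 * rr) by positivity)) hη
  refine ⟨A, hA, fun n hn hnE => ?_⟩
  have h1 := (hA' n hn hnE).1
  have hx0 : s * (n : ℤ) ≠ 0 := by rcases hs with rfl | rfl <;> omega
  have hlog := log_side hs n
  constructor
  · rintro ⟨k, hk, hH, hk2⟩
    refine ⟨k, ?_, hH, hk2⟩
    have h2 := (abs_le.1 (hres _ k hx0 hH)).2
    rw [hlog] at h2
    have h3 := mul_le_mul_of_nonneg_left hk hl2.le
    rw [bk_eq] at h3
    have h4 := bo_eq x (Real.log n)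
    have h5 : Real.log 3 * (od 1 k (s * n) : ℝ) ≤ Real.log 3 * bo x (Real.log n) := by
      rw [h4]; nlinarith
    exact le_of_mul_le_mul_left h5 hl3
  · rintro ⟨k, hk, hH, hk2⟩
    refine ⟨k, ?_, hH, hk2⟩
    have h2 := (abs_le.1 (hres _ k hx0 hH)).1
    rw [hlog] at h2
    have h3 := mul_le_mul_of_nonneg_left hk hl3.le
    rw [bo_eq] at h3
    have h4 := bk_eq (x + θ) (Real.log n)
    have h5 : Real.log 2 * (k : ℝ) ≤ Real.log 2 * bk (x + θ) (Real.log n) := by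
      rw [h4]; nlinarith
    exact le_of_mul_le_mul_left h5 hl2

theorem side_two (s : ℤ) (n : ℕ) : s * ((2 * n : ℕ) : ℤ) = 2 * (s * (n : ℤ)) := by push_cast; ring

include hF in
/-- the same law at `2 n` -/
theorem law_two {s : ℤ} {δ : ℝ} {m : ℕ} {b : ℤ}
    (h : ∀ x : ℝ, Dn (fun n : ℕ => ∃ k : ℕ, (od 1 k (s * n) : ℝ) ≤ bo x (Real.log n) ∧ E F k (s * n) ∧
      od 1 k (s * n) ≡ b [ZMOD m]) (δ / m * Phi x)) (x : ℝ) :
    Dn (fun n : ℕ => ∃ k : ℕ, (od 1 k (s * ((2 * n : ℕ) : ℤ)) : ℝ) ≤ bo x (Real.log ((2 * n : ℕ) : ℝ)) ∧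
      E F k (s * ((2 * n : ℕ) : ℤ)) ∧ od 1 k (s * ((2 * n : ℕ) : ℤ)) ≡ b [ZMOD m]) (δ / m * Phi x) := by
  have hl2 : 0 < Real.log 2 := Real.log_pos (by norm_num)
  have hrr := rr_pos
  refine dn_squeeze (P := fun x (n : ℕ) => ∃ k : ℕ, (od 1 k (s * n) : ℝ) ≤ bo x (Real.log n) ∧ E F k (s * n) ∧
      od 1 k (s * n) ≡ b [ZMOD m])
    (F := fun x => δ / m * Phi x) (Phi_continuous.const_mul _) h ?_
  intro θ hθ η hη
  obtain ⟨A, hA, hA'⟩ := large_log (large_sqrt (Real.log 2 / nu + |x| * (Real.log 2 * rr))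
    (show 0 < θ * (Real.log 2 * rr) by positivity)) hη
  refine ⟨A, hA, fun n hn hnE => ?_⟩
  obtain ⟨h1, h1'⟩ := hA' n hn hnE
  have e : Real.log ((2 * n : ℕ) : ℝ) = Real.log n + Real.log 2 := by
    push_cast
    rw [Real.log_mul (by norm_num) (by exact_mod_cast (by omega : n ≠ 0)), add_comm]
  rw [e, side_two]
  have h2 := abs_le.1 (bo_shift x h1')
  constructor
  · rintro ⟨k, hk, hH, hk2⟩
    refine ⟨k + 1, ?_, E_two hF hH, by rw [od_two]; exact hk2⟩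
    rw [od_two]
    have h3 := bo_theta (x - θ) θ (Real.log n)
    rw [sub_add_cancel] at h3
    linarith [h2.1]
  · rintro ⟨k, hk, hH, hk2⟩
    obtain ⟨k', rfl, hH'⟩ := E_of_two hF hH
    rw [od_two] at hk hk2
    refine ⟨k', ?_, hH', hk2⟩
    have h3 := bo_theta x θ (Real.log n)
    linarith [h2.2]

include hF in
/-- the law for the odd integers -/
theorem law_odd {s : ℤ} (hs : s = 1 ∨ s = -1) :
    ∃ δ : ℝ, 0 ≤ δ ∧ ((∃ a ∈ F, 0 < s * a ∧ ¬ (3 : ℤ) ∣ a) → 0 < δ) ∧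
    Dn (fun n : ℕ => ∃ k : ℕ, (Td 1)^[k] (s * n) ∈ F) δ ∧
    Dn (fun n : ℕ => n % 2 = 1 ∧ ∃ k : ℕ, E F k (s * n)) (δ / 2) ∧
    ∀ (m : ℕ) (b : ℤ), 1 ≤ m →
      Dn (fun n : ℕ => n % 2 = 1 ∧ ∃ k : ℕ, E F k (s * n) ∧ od 1 k (s * n) ≡ b [ZMOD m]) (δ / m / 2) ∧
      ∀ x : ℝ, Dn (fun n : ℕ => n % 2 = 1 ∧ ∃ k : ℕ, (od 1 k (s * n) : ℝ) ≤ bo x (Real.log n) ∧
        E F k (s * n) ∧ od 1 k (s * n) ≡ b [ZMOD m]) (δ / m * Phi x / 2) := by
  obtain ⟨δ, h0, h1, h3, h4⟩ := law_k hs F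
  have hB : Dn (fun n : ℕ => ∃ k : ℕ, E F k (s * n)) δ := by
    refine Dn_iff (fun n _ => ?_) h3
    constructor
    · rintro ⟨k, hk⟩
      obtain ⟨j, _, hj⟩ := exists_E hk
      exact ⟨j, hj⟩
    · rintro ⟨k, hk⟩; exact ⟨k, hk.1⟩
  refine ⟨δ, h0, h1, h3, ?_, fun m b hm => ⟨?_, fun x => ?_⟩⟩
  · refine dn_odd hB (Dn_iff (fun n _ => ?_) hB)
    rw [side_two]
    exact ⟨fun ⟨k, hk⟩ => ⟨k + 1, E_two hF hk⟩, fun ⟨k, hk⟩ => by
      obtain ⟨k', _, h'⟩ := E_of_two hF hk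
      exact ⟨k', h'⟩⟩
  · have h5 := (h4 m b hm).1
    refine dn_odd h5 (Dn_iff (fun n _ => ?_) h5)
    rw [side_two]
    constructor
    · rintro ⟨k, hk, hk2⟩
      exact ⟨k + 1, E_two hF hk, by rw [od_two]; exact hk2⟩
    · rintro ⟨k, hk, hk2⟩
      obtain ⟨k', rfl, h'⟩ := E_of_two hF hk
      rw [od_two] at hk2
      exact ⟨k', h', hk2⟩
  · have h5 := law_o hs F (h4 m b hm).2
    exact dn_odd (h5 x) (law_two hF h5 x)

end Pool.Agent.W26.HN
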