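import Pool.Agent.W26.HN.A

/-! The Syracuse map and the shortcut map `Td 1`. -/

set_option autoImplicit false

namespace Pool.Agent.W26.HN

open Pool.Agent.H499R2.ND (Td)
open Pool.Agent.H499R2.LT

/-- the Syracuse map -/
def Sy (N : ℤ) : ℤ := (3 * N + 1) / 2 ^ padicValInt 2 (3 * N + 1)

/-- the orbit of `N` under the Syracuse map enters `F` after exactly `k` steps -/
def En (F : Finset ℤ) (k : ℕ) (N : ℤ) : Prop := Sy^[k] N ∈ F ∧ ∀ i < k, Sy^[i] N ∉ F

theorem Sy_eq {N M : ℤ} {v : ℕ} (h : 3 * N + 1 = 2 ^ v * M) (hM : M % 2 = 1) : Sy N = M := by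
  have hM0 : M ≠ 0 := by rintro rfl; norm_num at hM
  have h1 : padicValInt 2 (3 * N + 1) = v := by
    rw [h, padicValInt.mul (by positivity) hM0]
    have h2 : padicValInt 2 M = 0 := padicValInt.eq_zero_of_not_dvd (by
      intro h3
      have : (2 : ℤ) ∣ M := by exact_mod_cast h3
      omega)
    have h3 : padicValInt 2 ((2 : ℤ) ^ v) = v := by
      have e : ((2 : ℤ) ^ v) = ((2 ^ v : ℕ) : ℤ) := by push_cast; ring
      rw [e, padicValInt.of_nat, padicValNat.prime_pow]
    rw [h2, h3, add_zero]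
  unfold Sy
  rw [h1, h, Int.mul_ediv_cancel_left _ (by positivity)]

theorem exists_pow (n : ℕ) : ∀ x : ℤ, x ≠ 0 → x.natAbs ≤ n → ∃ (v : ℕ) (M : ℤ), x = 2 ^ v * M ∧ M % 2 = 1 := by
  induction n with
  | zero => intro x hx h; omega
  | succ n ih =>
    intro x hx h
    rcases Int.emod_two_eq_zero_or_one x with h1 | h1
    · obtain ⟨v, M, h2, h3⟩ := ih (x / 2) (by omega) (by omega)
      refine ⟨v + 1, M, ?_, h3⟩
      have : x = 2 * (x / 2) := by omega
      rw [this, h2]
      ring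
    · exact ⟨0, x, by simp, h1⟩

theorem Td_pow (v : ℕ) (M : ℤ) (i : ℕ) (hi : i ≤ v) : (Td 1)^[i] (2 ^ v * M) = 2 ^ (v - i) * M := by
  induction i with
  | zero => simp
  | succ i ih =>
    rw [Function.iterate_succ_apply', ih (by omega)]
    have e : v - i = (v - (i + 1)) + 1 := by omega
    rw [e, pow_succ, show (2 : ℤ) ^ (v - (i + 1)) * 2 * M = 2 * (2 ^ (v - (i + 1)) * M) by ring, Td_two]

/-- one step of the Syracuse map in terms of the shortcut map -/
theorem step {x : ℤ} (hx : x % 2 = 1) : ∃ v : ℕ, 1 ≤ v ∧ (Td 1)^[v] x = Sy x ∧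
    (∀ i, 1 ≤ i → i < v → (Td 1)^[i] x % 2 = 0) ∧ Sy x % 2 = 1 := by
  obtain ⟨w, M, h1, h2⟩ := exists_pow _ (3 * x + 1) (by omega) le_rfl
  have hw : w ≠ 0 := by
    rintro rfl
    rw [pow_zero, one_mul] at h1
    omega
  obtain ⟨v, rfl⟩ : ∃ v, w = v + 1 := ⟨w - 1, by omega⟩
  have hS : Sy x = M := Sy_eq h1 h2
  have hT : Td 1 x = 2 ^ v * M := by
    unfold Td
    rw [if_neg (by omega), h1, pow_succ]
    have : (2 : ℤ) ^ v * 2 * M = 2 * (2 ^ v * M) := by ring
    rw [this]
    omega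
  refine ⟨v + 1, by omega, ?_, ?_, by rw [hS]; exact h2⟩
  · rw [Function.iterate_succ_apply, hT, Td_pow v M v le_rfl, hS]
    simp
  · intro i hi hiv
    obtain ⟨j, rfl⟩ : ∃ j, i = j + 1 := ⟨i - 1, by omega⟩
    rw [Function.iterate_succ_apply, hT, Td_pow v M j (by omega)]
    obtain ⟨r, hr⟩ : ∃ r, v - j = r + 1 := ⟨v - j - 1, by omega⟩
    rw [hr, pow_succ]
    have : (2 : ℤ) ^ r * 2 * M = 2 * (2 ^ r * M) := by ring
    rw [this]
    omega

theorem od_even (v : ℕ) (x : ℤ) (h : ∀ i < v, (Td 1)^[i] x % 2 = 0) : od 1 v x = 0 := by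
  induction v generalizing x with
  | zero => rw [od]
  | succ v ih =>
    rw [od, if_pos (by simpa using h 0 (by omega)), ih, add_zero]
    intro i hi
    have := h (i + 1) (by omega)
    rwa [Function.iterate_succ_apply] at this

theorem od_step {x : ℤ} (hx : x % 2 = 1) {v : ℕ} (hv : 1 ≤ v)
    (h : ∀ i, 1 ≤ i → i < v → (Td 1)^[i] x % 2 = 0) : od 1 v x = 1 := by
  obtain ⟨w, rfl⟩ : ∃ w, v = w + 1 := ⟨v - 1, by omega⟩
  rw [od, if_neg (by omega), od_even, add_zero]
  intro i hi
  have := h (i + 1) (by omega) (by omega)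
  rwa [Function.iterate_succ_apply] at this

variable {F : Finset ℤ} (hF : ∀ y ∈ F, y % 2 = 1)

include hF in
theorem En_of_E (k : ℕ) : ∀ x : ℤ, x % 2 = 1 → E F k x → ∃ j : ℕ, (j : ℤ) = od 1 k x ∧ En F j x := by
  induction k using Nat.strong_induction_on with
  | _ k ih =>
    intro x hx h
    rcases Nat.eq_zero_or_pos k with hk | hk
    · subst hk
      exact ⟨0, by simp [od], h.1, fun i hi => by omega⟩
    · obtain ⟨v, hv, h1, h2, h3⟩ := step hx
      have hxF : x ∉ F := h.2 0 hk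
      have hvk : v ≤ k := by
        by_contra hlt
        have h4 := h2 k hk (by omega)
        have h5 := hF _ h.1
        omega
      have h6 : E F (k - v) (Sy x) := by
        constructor
        · rw [← h1, ← Function.iterate_add_apply, Nat.sub_add_cancel hvk]; exact h.1
        · intro i hi
          rw [← h1, ← Function.iterate_add_apply]
          exact h.2 _ (by omega)
      obtain ⟨j, hj, hj1, hj2⟩ := ih (k - v) (by omega) (Sy x) h3 h6
      refine ⟨j + 1, ?_, ?_, ?_⟩
      · have e : k = v + (k - v) := by omega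
        rw [e, od_add, od_step hx hv h2, h1]
        have e2 : v + (k - v) - v = k - v := by omega
        rw [← hj]
        push_cast
        ring
      · rw [Function.iterate_succ_apply]; exact hj1
      · intro i hi
        rcases i with _ | i
        · exact hxF
        · rw [Function.iterate_succ_apply]; exact hj2 i (by omega)

include hF in
theorem E_of_En (j : ℕ) : ∀ x : ℤ, x % 2 = 1 → En F j x → ∃ k : ℕ, (j : ℤ) = od 1 k x ∧ E F k x := by
  induction j with
  | zero =>
    intro x hx h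
    exact ⟨0, by simp [od], h.1, fun i hi => by omega⟩
  | succ j ih =>
    intro x hx h
    obtain ⟨v, hv, h1, h2, h3⟩ := step hx
    have hxF : x ∉ F := h.2 0 (by omega)
    obtain ⟨k, hk, hk1, hk2⟩ := ih (Sy x) h3 ⟨by
      have := h.1
      rwa [Function.iterate_succ_apply] at this, fun i hi => by
      have := h.2 (i + 1) (by omega)
      rwa [Function.iterate_succ_apply] at this⟩
    refine ⟨v + k, ?_, ?_, ?_⟩
    · rw [od_add, od_step hx hv h2, h1, ← hk]
      push_cast
      ring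
    · rw [Nat.add_comm, Function.iterate_add_apply, h1]; exact hk1
    · intro i hi
      by_cases hiv : i < v
      · rcases Nat.eq_zero_or_pos i with hi0 | hi0
        · subst hi0; exact hxF
        · intro h4
          have h5 := h2 i hi0 hiv
          have h6 := hF _ h4
          omega
      · have e : i = (i - v) + v := by omega
        rw [e, Function.iterate_add_apply, h1]
        exact hk2 _ (by omega)

theorem Sy_odd {x : ℤ} (hx : x % 2 = 1) (j : ℕ) : Sy^[j] x % 2 = 1 := by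
  induction j with
  | zero => exact hx
  | succ j ih =>
    rw [Function.iterate_succ_apply']
    obtain ⟨_, _, _, _, h⟩ := step ih
    exact h

/-- Syracuse iterates are iterates of the shortcut map -/
theorem Sy_iter {x : ℤ} (hx : x % 2 = 1) (j : ℕ) : ∃ k : ℕ, j ≤ k ∧ (Td 1)^[k] x = Sy^[j] x := by
  induction j with
  | zero => exact ⟨0, le_rfl, rfl⟩
  | succ j ih =>
    obtain ⟨k, hk, h⟩ := ih
    obtain ⟨v, hv, h1, _, _⟩ := step (Sy_odd hx j)
    refine ⟨v + k, by omega, ?_⟩
    rw [Function.iterate_add_apply, h, h1, Function.iterate_succ_apply']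

/-- odd iterates of the shortcut map are Syracuse iterates -/
theorem Td_iter {x : ℤ} (hx : x % 2 = 1) (k : ℕ) (h : (Td 1)^[k] x % 2 = 1) :
    ∃ j : ℕ, (j : ℤ) = od 1 k x ∧ Sy^[j] x = (Td 1)^[k] x := by
  induction k using Nat.strong_induction_on generalizing x with
  | _ k ih =>
    rcases Nat.eq_zero_or_pos k with hk | hk
    · subst hk
      exact ⟨0, by simp [od], rfl⟩
    · obtain ⟨v, hv, h1, h2, h3⟩ := step hx
      have hvk : v ≤ k := by
        by_contra hlt
        have h4 := h2 k hk (by omega)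
        omega
      have e0 : (Td 1)^[k] x = (Td 1)^[k - v] (Sy x) := by
        rw [← h1, ← Function.iterate_add_apply, Nat.sub_add_cancel hvk]
      rw [e0] at h ⊢
      obtain ⟨j, hj, hj1⟩ := ih (k - v) (by omega) h3 h
      refine ⟨j + 1, ?_, ?_⟩
      · have e : od 1 k x = od 1 v x + od 1 (k - v) ((Td 1)^[v] x) := by
          rw [← od_add, Nat.add_sub_cancel' hvk]
        rw [e, od_step hx hv h2, h1, ← hj]
        push_cast
        ring
      · rw [Function.iterate_succ_apply]; exact hj1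

theorem hit_iff {x : ℤ} (hx : x % 2 = 1) {F : Finset ℤ} (hF : ∀ y ∈ F, y % 2 = 1) :
    (∃ k : ℕ, (Td 1)^[k] x ∈ F) ↔ ∃ j : ℕ, Sy^[j] x ∈ F := by
  constructor
  · rintro ⟨k, hk⟩
    obtain ⟨j, _, hj⟩ := Td_iter hx k (hF _ hk)
    exact ⟨j, by rw [hj]; exact hk⟩
  · rintro ⟨j, hj⟩
    obtain ⟨k, _, hk⟩ := Sy_iter hx j
    exact ⟨k, by rw [hk]; exact hj⟩

theorem Sy_neg {x : ℤ} (hx : x % 2 = 1) (hx0 : x < 0) (j : ℕ) : Sy^[j] x < 0 := by
  obtain ⟨k, _, hk⟩ := Sy_iter hx j
  rw [← hk]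
  have := (Pool.Agent.H499R2.ND.Td_one_iter_sign (s := -1) (Or.inr rfl) x k).1 (by omega)
  omega

theorem Sy_three {x : ℤ} (hx : x % 2 = 1) : ¬ (3 : ℤ) ∣ Sy x := by
  obtain ⟨w, M, h1, h2⟩ := exists_pow _ (3 * x + 1) (by omega) le_rfl
  rw [Sy_eq h1 h2]
  rintro ⟨c, rfl⟩
  have h3 : (3 : ℤ) ∣ 1 := by
    have h4 : (3 : ℤ) ∣ 3 * x + 1 := by rw [h1]; exact ⟨2 ^ w * c, by ring⟩
    omega
  omega

end Pool.Agent.W26.HN
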