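import Pool.Agent.W26.HN.B

/-! Invariant sets of negative odd integers. -/

set_option autoImplicit false

namespace Pool.Agent.W26.HN

open Filter Topology

open Pool.Agent.H499R2.ND (Dn cnt Td Inv HD inv_iter Phi one_pos one_lt dens_side Td_one_sign Td_one_iter_sign)
open Pool.Agent.H499R2.LT

/-- the odd part of `x` -/
def OP (x m : ℤ) : Prop := m % 2 = 1 ∧ ∃ e : ℕ, x = 2 ^ e * m

theorem OP_two {x m : ℤ} : OP (2 * x) m ↔ OP x m := by
  constructor
  · rintro ⟨h1, e, h2⟩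
    refine ⟨h1, ?_⟩
    rcases e with _ | e
    · rw [pow_zero, one_mul] at h2; omega
    · refine ⟨e, ?_⟩
      rw [pow_succ] at h2
      have : (2 : ℤ) ^ e * 2 * m = 2 * (2 ^ e * m) := by ring
      rw [this] at h2
      omega
  · rintro ⟨h1, e, h2⟩
    exact ⟨h1, e + 1, by rw [h2, pow_succ]; ring⟩

theorem OP_odd {x m : ℤ} (hx : x % 2 = 1) : OP x m ↔ m = x := by
  constructor
  · rintro ⟨h1, e, h2⟩
    rcases e with _ | e
    · rw [pow_zero, one_mul] at h2; exact h2.symm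
    · exfalso
      rw [pow_succ] at h2
      have : (2 : ℤ) ^ e * 2 * m = 2 * (2 ^ e * m) := by ring
      rw [this] at h2
      omega
  · rintro rfl
    exact ⟨hx, 0, by simp⟩

theorem OP_Td {x : ℤ} (hx : x % 2 = 1) (m : ℤ) : OP (Td 1 x) m ↔ m = Sy x := by
  obtain ⟨w, M, h1, h2⟩ := exists_pow _ (3 * x + 1) (by omega) le_rfl
  have hS : Sy x = M := Sy_eq h1 h2
  have hT : 2 * Td 1 x = 2 ^ w * M := by
    unfold Td
    rw [if_neg (by omega), ← h1]
    omega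
  rw [← OP_two, hT, hS]
  have hpow : ∀ (w : ℕ), OP (2 ^ w * M) m ↔ OP M m := by
    intro w
    induction w with
    | zero => rw [pow_zero, one_mul]
    | succ w ih => rw [pow_succ, show (2 : ℤ) ^ w * 2 * M = 2 * (2 ^ w * M) by ring, OP_two, ih]
  rw [hpow, OP_odd h2]

/-- the integers whose odd part is in `S` -/
def Lift (S : Set ℤ) : Set ℤ := {x : ℤ | x < 0 ∧ ∃ m ∈ S, OP x m}

theorem lift_odd {S : Set ℤ} {x : ℤ} (hx : x % 2 = 1) (hx0 : x < 0) : x ∈ Lift S ↔ x ∈ S := by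
  constructor
  · rintro ⟨_, m, hm, h⟩
    rw [OP_odd hx] at h
    rw [← h]; exact hm
  · intro h
    exact ⟨hx0, x, h, (OP_odd hx).2 rfl⟩

theorem lift_inv {S : Set ℤ} (hS : ∀ N : ℤ, N < 0 → N % 2 = 1 → (N ∈ S ↔ Sy N ∈ S)) : Inv 1 (Lift S) := by
  intro x
  have hsg := Td_one_sign (s := -1) (Or.inr rfl) x
  have hsg' : x < 0 ↔ Td 1 x < 0 := by
    constructor
    · intro h; have := hsg.1 (by omega); omega
    · intro h; have := hsg.2 (by omega); omega
  rcases Int.emod_two_eq_zero_or_one x with h | h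
  · have e : x = 2 * Td 1 x := by unfold Td; rw [if_pos h]; omega
    constructor
    · rintro ⟨h1, m, hm, h2⟩
      refine ⟨hsg'.1 h1, m, hm, ?_⟩
      rw [e] at h2
      exact OP_two.1 h2
    · rintro ⟨h1, m, hm, h2⟩
      refine ⟨hsg'.2 h1, m, hm, ?_⟩
      rw [e]
      exact OP_two.2 h2
  · constructor
    · rintro ⟨h1, m, hm, h2⟩
      rw [OP_odd h] at h2
      subst h2
      exact ⟨hsg'.1 h1, Sy m, (hS m h1 h).1 hm, (OP_Td h _).2 rfl⟩
    · rintro ⟨h1, m, hm, h2⟩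
      rw [OP_Td h] at h2
      have h1' := hsg'.2 h1
      subst h2
      exact ⟨h1', x, (hS x h1' h).2 hm, (OP_odd h).2 rfl⟩

theorem neg_cast (n : ℕ) : (-1 : ℤ) * (n : ℤ) = -(n : ℤ) := by ring

/-- density of an invariant set among the odd integers -/
theorem dn_lift {S : Set ℤ} (hS : ∀ N : ℤ, N < 0 → N % 2 = 1 → (N ∈ S ↔ Sy N ∈ S)) {l : ℝ}
    (hl : HD (-1) (Lift S) l) : Dn (fun n : ℕ => n % 2 = 1 ∧ -(n : ℤ) ∈ S) (l / 2) := by
  have h1 := dn_side hl
  have h2 := Pool.Agent.H499R2.HL.dn_odd h1 (Dn_iff (fun n _ => by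
    rw [side_two, (lift_inv hS).two]) h1)
  refine Dn_iff (fun n hn => and_congr_right fun hodd => ?_) h2
  rw [neg_cast]
  exact lift_odd (by omega) (by omega)

theorem inv_density {S : Set ℤ} (hS : ∀ N : ℤ, N < 0 → N % 2 = 1 → (N ∈ S ↔ Sy N ∈ S)) :
    ∃ d : ℝ, 0 ≤ d ∧ d ≤ 1 ∧ HD (-1) (Lift S) d ∧ Dn (fun n : ℕ => n % 2 = 1 ∧ -(n : ℤ) ∈ S) (d / 2) ∧
      (d = 0 ↔ ∀ N : ℤ, N < 0 → N % 2 = 1 → N ∉ S) ∧ (d = 1 ↔ ∀ N : ℤ, N < 0 → N % 2 = 1 → N ∈ S) := by
  obtain ⟨d, h0, h1, hd⟩ := dens_side odd_one isCoprime_one_left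
    (s := -1) (Or.inr rfl) (lift_inv hS)
  have hdn := dn_lift hS hd
  refine ⟨d, h0, h1, hd, hdn, ⟨?_, ?_⟩, ⟨?_, ?_⟩⟩
  · intro hd0 N hN hodd hNS
    have := one_pos (s := -1) (Or.inr rfl) (lift_inv hS) ((lift_odd hodd hN).2 hNS) (by omega) hd
    linarith
  · intro h
    have h3 : Dn (fun n : ℕ => n % 2 = 1 ∧ -(n : ℤ) ∈ S) 0 := by
      refine Dn_iff (fun n hn => ?_) Pool.Agent.H499R2.LT.Dn_zero
      constructor
      · intro hf; exact hf.elim
      · rintro ⟨h4, h5⟩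
        exact h _ (by omega) (by omega) h5
    have h4 := tendsto_nhds_unique hdn h3
    linarith
  · intro hd1 N hN hodd
    by_contra hNS
    have := one_lt (s := -1) (Or.inr rfl) (lift_inv hS) (fun h => hNS ((lift_odd hodd hN).1 h)) (by omega) hd
    linarith
  · intro h
    have h3 : Dn (fun n : ℕ => n % 2 = 1 ∧ -(n : ℤ) ∈ S) (1 / 2) := by
      refine Dn_iff (fun n hn => ?_) Pool.Agent.H499R2.ND.odd_density
      constructor
      · intro h4; exact ⟨h4, h _ (by omega) (by omega)⟩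
      · exact fun h4 => h4.1
    have h4 := tendsto_nhds_unique hdn h3
    linarith

end Pool.Agent.W26.HN
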