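import Pool.Agent.W26.HN.C
import Pool.Agent.H499R2.NDCor3
import Pool.Agent.H499R2.LT.CY

/-! Cycles of the Syracuse map on the negative odd integers. -/

set_option autoImplicit false

namespace Pool.Agent.W26.HN

open Filter Topology

open Pool.Agent.H499R2.ND (Dn cnt Td Inv HD Phi part_sum_one)
open Pool.Agent.H499R2.LT

/-- `Z` is a cycle of negative odd integers -/
def IsCyc (Z : Finset ℤ) : Prop :=
  ∃ (a : ℤ) (p : ℕ), a < 0 ∧ Odd a ∧ 1 ≤ p ∧ Sy^[p] a = a ∧ Z = (Finset.range p).image fun i => Sy^[i] a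

theorem cyc_nonempty {Z : Finset ℤ} (hZ : IsCyc Z) : ∃ y ∈ Z, y < 0 ∧ y % 2 = 1 ∧ ¬ (3 : ℤ) ∣ y := by
  obtain ⟨a, p, ha, hao, hp, hpa, rfl⟩ := hZ
  have hao' : a % 2 = 1 := Int.odd_iff.1 hao
  refine ⟨Sy^[1] a, ?_, Sy_neg hao' ha 1, Sy_odd hao' 1, ?_⟩
  · rw [Pool.Agent.H499R2.LT.CY.iter_mod hp hpa 1]
    exact Finset.mem_image.2 ⟨1 % p, Finset.mem_range.2 (Nat.mod_lt _ hp), rfl⟩
  · rw [Function.iterate_one]; exact Sy_three hao'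

theorem cyc_odd {Z : Finset ℤ} (hZ : IsCyc Z) {y : ℤ} (hy : y ∈ Z) : y < 0 ∧ y % 2 = 1 := by
  obtain ⟨a, p, ha, hao, hp, hpa, rfl⟩ := hZ
  have hao' : a % 2 = 1 := Int.odd_iff.1 hao
  obtain ⟨i, _, rfl⟩ := Finset.mem_image.1 hy
  exact ⟨Sy_neg hao' ha i, Sy_odd hao' i⟩

theorem cyc_mem {Z : Finset ℤ} (hZ : IsCyc Z) {y : ℤ} (hy : y ∈ Z) (z : ℤ) :
    z ∈ Z ↔ ∃ j : ℕ, Sy^[j] y = z := by
  obtain ⟨a, p, ha, hao, hp, hpa, rfl⟩ := hZ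
  obtain ⟨i, hi, rfl⟩ := Finset.mem_image.1 hy
  rw [Finset.mem_range] at hi
  constructor
  · intro hz
    obtain ⟨j, _, rfl⟩ := Finset.mem_image.1 hz
    refine ⟨j + (p - i), ?_⟩
    rw [← Function.iterate_add_apply]
    have e : j + (p - i) + i = j + p := by omega
    rw [e, Function.iterate_add_apply, hpa]
  · rintro ⟨j, rfl⟩
    rw [← Function.iterate_add_apply]
    exact Finset.mem_image.2 ⟨(j + i) % p, Finset.mem_range.2 (Nat.mod_lt _ hp),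
      (Pool.Agent.H499R2.LT.CY.iter_mod hp hpa (j + i)).symm⟩

theorem cyc_eq {Z Z' : Finset ℤ} (hZ : IsCyc Z) (hZ' : IsCyc Z') {x : ℤ} {k k' : ℕ}
    (h : Sy^[k] x ∈ Z) (h' : Sy^[k'] x ∈ Z') : Z = Z' := by
  have key : ∀ {Z Z' : Finset ℤ}, IsCyc Z → IsCyc Z' → ∀ {y : ℤ}, y ∈ Z → y ∈ Z' → Z = Z' := by
    intro Z Z' hZ hZ' y hy hy'
    ext z
    rw [cyc_mem hZ hy, cyc_mem hZ' hy']
  rcases le_total k k' with hk | hk
  · refine key hZ hZ' ((cyc_mem hZ h _).2 ⟨k' - k, ?_⟩) h'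
    rw [← Function.iterate_add_apply, Nat.sub_add_cancel hk]
  · refine key hZ hZ' h ((cyc_mem hZ' h' _).2 ⟨k - k', ?_⟩)
    rw [← Function.iterate_add_apply, Nat.sub_add_cancel hk]

/-- the basin of `Z` -/
def Ba (Z : Finset ℤ) : Set ℤ := {N : ℤ | ∃ k : ℕ, Sy^[k] N ∈ Z}

theorem Ba_inv {Z : Finset ℤ} (hZ : ∀ y ∈ Z, Sy y ∈ Z) (N : ℤ) : N ∈ Ba Z ↔ Sy N ∈ Ba Z := by
  constructor
  · rintro ⟨k, hk⟩
    refine ⟨k, ?_⟩
    rw [← Function.iterate_succ_apply, Function.iterate_succ_apply']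
    exact hZ _ hk
  · rintro ⟨k, hk⟩
    exact ⟨k + 1, by rw [Function.iterate_succ_apply]; exact hk⟩

theorem cyc_step {Z : Finset ℤ} (hZ : IsCyc Z) (y : ℤ) (hy : y ∈ Z) : Sy y ∈ Z :=
  (cyc_mem hZ hy _).2 ⟨1, rfl⟩

/-- eventually periodic -/
def EP : Set ℤ := {N : ℤ | ∃ j p : ℕ, 1 ≤ p ∧ Sy^[j + p] N = Sy^[j] N}

theorem EP_inv (N : ℤ) : N ∈ EP ↔ Sy N ∈ EP := by
  constructor
  · rintro ⟨j, p, hp, h⟩
    refine ⟨j, p, hp, ?_⟩
    rw [← Function.iterate_succ_apply, ← Function.iterate_succ_apply, Function.iterate_succ_apply',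
      Function.iterate_succ_apply', h]
  · rintro ⟨j, p, hp, h⟩
    refine ⟨j + 1, p, hp, ?_⟩
    rw [show j + 1 + p = (j + p) + 1 by omega, Function.iterate_succ_apply, Function.iterate_succ_apply, h]

theorem EP_cyc {N : ℤ} (hN : N < 0) (hodd : N % 2 = 1) : N ∈ EP ↔ ∃ Z : Finset ℤ, IsCyc Z ∧ N ∈ Ba Z := by
  constructor
  · rintro ⟨j, p, hp, h⟩
    refine ⟨(Finset.range p).image fun i => Sy^[i] (Sy^[j] N), ⟨Sy^[j] N, p, Sy_neg hodd hN j,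
      Int.odd_iff.2 (Sy_odd hodd j), hp, ?_, rfl⟩, j, Finset.mem_image.2 ⟨0, Finset.mem_range.2 hp, rfl⟩⟩
    rw [← Function.iterate_add_apply, Nat.add_comm]; exact h
  · rintro ⟨Z, hZ, k, hk⟩
    obtain ⟨a, p, ha, hao, hp, hpa, rfl⟩ := hZ
    obtain ⟨i, _, hi⟩ := Finset.mem_image.1 hk
    refine ⟨k, p, hp, ?_⟩
    rw [Nat.add_comm, Function.iterate_add_apply, ← hi, ← Function.iterate_add_apply, Nat.add_comm,
      Function.iterate_add_apply, hpa]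

theorem OP_unique {x m m' : ℤ} (h : OP x m) (h' : OP x m') : m = m' := by
  obtain ⟨h1, e, he⟩ := h
  obtain ⟨h1', e', he'⟩ := h'
  have key : ∀ (e e' : ℕ) (m m' : ℤ), m % 2 = 1 → m' % 2 = 1 → (2 : ℤ) ^ e * m = 2 ^ e' * m' → m = m' := by
    intro e
    induction e with
    | zero =>
      intro e' m m' hm hm' h
      rcases e' with _ | e'
      · simpa using h
      · rw [pow_zero, one_mul, pow_succ, show (2 : ℤ) ^ e' * 2 * m' = 2 * (2 ^ e' * m') by ring] at h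
        omega
    | succ e ih =>
      intro e' m m' hm hm' h
      rcases e' with _ | e'
      · rw [pow_zero, one_mul, pow_succ, show (2 : ℤ) ^ e * 2 * m = 2 * (2 ^ e * m) by ring] at h
        omega
      · rw [pow_succ, pow_succ, show (2 : ℤ) ^ e * 2 * m = 2 * (2 ^ e * m) by ring,
          show (2 : ℤ) ^ e' * 2 * m' = 2 * (2 ^ e' * m') by ring] at h
        exact ih e' m m' hm hm' (by omega)
  exact key e e' m m' h1 h1' (by rw [← he, ← he'])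

/-- the densities of the basins of all cycles sum up to the density of `EP` -/
theorem sum_cyc (δ : Finset ℤ → ℝ)
    (hδ : ∀ Z, IsCyc Z → Dn (fun n : ℕ => n % 2 = 1 ∧ -(n : ℤ) ∈ Ba Z) (δ Z / 2)) :
    ∃ D : ℝ, HasSum (fun Z : {Z : Finset ℤ // IsCyc Z} => δ Z) D ∧
      Dn (fun n : ℕ => n % 2 = 1 ∧ -(n : ℤ) ∈ EP) (D / 2) ∧
      (D = 1 ↔ ∀ N : ℤ, N < 0 → N % 2 = 1 → N ∈ EP) := by
  obtain ⟨D, _, _, hD, hDn, _, hD1⟩ := inv_density (S := EP) (fun N _ _ => EP_inv N)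
  refine ⟨D, ?_, hDn, hD1⟩
  have hB : ∀ Z : {Z : Finset ℤ // IsCyc Z}, HD (-1) (Lift (Ba Z.1)) (δ Z.1) := by
    intro Z
    obtain ⟨d, _, _, hd, hdn, _, _⟩ := inv_density (S := Ba Z.1)
      (fun N _ _ => Ba_inv (cyc_step Z.2) N)
    have h2 := tendsto_nhds_unique hdn (hδ Z.1 Z.2)
    have h3 : d = δ Z.1 := by linarith
    rw [← h3]; exact hd
  refine part_sum_one (s := -1) (Or.inr rfl) (fun Z : {Z : Finset ℤ // IsCyc Z} => Lift (Ba Z.1))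
    (fun Z => δ Z.1) hB (fun Z Z' hne => ?_) (S := Lift EP)
    (fun Z => lift_inv fun N _ _ => Ba_inv (cyc_step Z.2) N) (lift_inv fun N _ _ => EP_inv N)
    (fun n hn hper => ?_) (fun Z n _ hn => ?_) hD
  · rw [Set.disjoint_left]
    rintro x ⟨_, m, ⟨k, hk⟩, h1⟩ ⟨_, m', ⟨k', hk'⟩, h1'⟩
    obtain rfl := OP_unique h1 h1'
    exact hne (Subtype.ext (cyc_eq Z.2 Z'.2 hk hk'))
  · obtain ⟨h1, m, hm, h2⟩ := hper
    have hm0 : m < 0 := by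
      obtain ⟨_, e, he⟩ := h2
      by_contra hcon
      have h3 : (0 : ℤ) ≤ 2 ^ e * m := mul_nonneg (by positivity) (by omega)
      omega
    obtain ⟨Z, hZ, hZm⟩ := (EP_cyc hm0 h2.1).1 hm
    exact ⟨⟨Z, hZ⟩, h1, m, hZm, h2⟩
  · obtain ⟨h1, m, hm, h2⟩ := hn
    have hm0 : m < 0 := by
      obtain ⟨_, e, he⟩ := h2
      by_contra hcon
      have h3 : (0 : ℤ) ≤ 2 ^ e * m := mul_nonneg (by positivity) (by omega)
      omega
    exact ⟨h1, m, (EP_cyc hm0 h2.1).2 ⟨Z.1, Z.2, hm⟩, h2⟩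

/-- the law of the entrance times -/
theorem law_cyc : ∃ δ : Finset ℤ → ℝ, ∀ Z : Finset ℤ, IsCyc Z →
    0 < δ Z ∧ Dn (fun n : ℕ => n % 2 = 1 ∧ -(n : ℤ) ∈ Ba Z) (δ Z / 2) ∧
    ∀ (q : ℕ) (b : ℤ), 1 ≤ q →
      Dn (fun n : ℕ => n % 2 = 1 ∧ ∃ k : ℕ, En Z k (-(n : ℤ)) ∧ (k : ℤ) ≡ b [ZMOD q]) (δ Z / q / 2) ∧
      ∀ x : ℝ, Dn (fun n : ℕ => n % 2 = 1 ∧ ∃ k : ℕ, En Z k (-(n : ℤ)) ∧
        (k : ℝ) ≤ Pool.Agent.H499R2.HL.bo x (Real.log n) ∧ (k : ℤ) ≡ b [ZMOD q]) (δ Z / q * Phi x / 2) := by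
  classical
  have hex : ∀ Z : Finset ℤ, ∃ d : ℝ, IsCyc Z → 
    0 < d ∧ Dn (fun n : ℕ => n % 2 = 1 ∧ -(n : ℤ) ∈ Ba Z) (d / 2) ∧
    ∀ (q : ℕ) (b : ℤ), 1 ≤ q →
      Dn (fun n : ℕ => n % 2 = 1 ∧ ∃ k : ℕ, En Z k (-(n : ℤ)) ∧ (k : ℤ) ≡ b [ZMOD q]) (d / q / 2) ∧
      ∀ x : ℝ, Dn (fun n : ℕ => n % 2 = 1 ∧ ∃ k : ℕ, En Z k (-(n : ℤ)) ∧
        (k : ℝ) ≤ Pool.Agent.H499R2.HL.bo x (Real.log n) ∧ (k : ℤ) ≡ b [ZMOD q]) (d / q * Phi x / 2) := by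
    intro Z
    by_cases hZ : IsCyc Z
    · have hodd : ∀ y ∈ Z, y % 2 = 1 := fun y hy => (cyc_odd hZ hy).2
      obtain ⟨d, h0, hpos, _, hE, hlaw⟩ := law_odd hodd (s := -1) (Or.inr rfl)
      obtain ⟨y, hy, hy0, _, hy3⟩ := cyc_nonempty hZ
      refine ⟨d, fun _ => ⟨hpos ⟨y, hy, by omega, hy3⟩, ?_, fun q b hq => ⟨?_, fun x => ?_⟩⟩⟩
      · refine Dn_iff (fun n hn => and_congr_right fun hn2 => ?_) hE
        rw [neg_cast]
        have hx : (-(n : ℤ)) % 2 = 1 := by omega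
        constructor
        · rintro ⟨k, hk⟩
          obtain ⟨j, _, hj⟩ := En_of_E hodd k _ hx hk
          exact ⟨j, hj.1⟩
        · rintro ⟨j, hj⟩
          obtain ⟨k, _, hk⟩ := Sy_iter hx j
          obtain ⟨k', _, hk'⟩ := exists_E (F := Z) (k := k) (x := -(n : ℤ)) (by rw [hk]; exact hj)
          exact ⟨k', hk'⟩
      · refine Dn_iff (fun n hn => and_congr_right fun hn2 => ?_) (hlaw q b hq).1
        rw [neg_cast]
        have hx : (-(n : ℤ)) % 2 = 1 := by omega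
        constructor
        · rintro ⟨k, hk, hk2⟩
          obtain ⟨j, hj, hj'⟩ := En_of_E hodd k _ hx hk
          exact ⟨j, hj', by rw [hj]; exact hk2⟩
        · rintro ⟨j, hj, hj2⟩
          obtain ⟨k, hk, hk'⟩ := E_of_En hodd j _ hx hj
          exact ⟨k, hk', by rw [← hk]; exact hj2⟩
      · refine Dn_iff (fun n hn => and_congr_right fun hn2 => ?_) ((hlaw q b hq).2 x)
        rw [neg_cast]
        have hx : (-(n : ℤ)) % 2 = 1 := by omega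
        constructor
        · rintro ⟨k, hk1, hk, hk2⟩
          obtain ⟨j, hj, hj'⟩ := En_of_E hodd k _ hx hk
          refine ⟨j, hj', ?_, by rw [hj]; exact hk2⟩
          rw [← hj] at hk1
          exact_mod_cast hk1
        · rintro ⟨j, hj, hj1, hj2⟩
          obtain ⟨k, hk, hk'⟩ := E_of_En hodd j _ hx hj
          refine ⟨k, ?_, hk', by rw [← hk]; exact hj2⟩
          rw [← hk]
          exact_mod_cast hj1
    · exact ⟨0, fun h => (hZ h).elim⟩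
  choose δ hδ using hex
  exact ⟨δ, hδ⟩

end Pool.Agent.W26.HN
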